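import Pool.Agent.helper17.CH.SpecW
import Pool.Agent.helper85.BVP.Boxes

/-!
# Row ch:TII (MP_5628fe_nt): type II integrals
-/

set_option autoImplicit false

namespace Pool.Agent.CH

open Finset ArithmeticFunction MeasureTheory
open Pool.Agent.helper85.BVP (trunc beta Mr Zr)

private theorem TII_cont (M : ℕ) (a : ℕ → ℂ) : Continuous (DPb M a) := by
  unfold DPb nit
  fun_prop

private theorem TII_meas (ε : ℝ) (B N : ℕ) : MeasurableSet (Tset ε B N) := by
  apply IsClosed.measurableSet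
  exact (isClosed_le continuous_const continuous_abs).inter
    (isClosed_le continuous_abs continuous_const)

private theorem TII_core (S : Set ℝ) (hS : MeasurableSet S) (T p I : ℝ) (P Q : ℝ → ℂ)
    (hP : Continuous P) (hQ : Continuous Q) (hT : 0 ≤ T) (hST : ∀ t ∈ S, |t| ≤ T)
    (hp : ∀ t ∈ S, ‖P t‖ ≤ p) (hI : ∫ t in (-T)..T, ‖Q t‖ ^ 2 ≤ I) :
    ∫ t in S, ‖P t‖ ^ 2 * ‖Q t‖ ^ 2 ≤ p ^ 2 * I := by
  have hsub : S ⊆ Set.Icc (-T) T := fun t ht => abs_le.1 (hST t ht)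
  have i1 : IntegrableOn (fun t => ‖P t‖ ^ 2 * ‖Q t‖ ^ 2) (Set.Icc (-T) T) :=
    (by fun_prop : Continuous fun t => ‖P t‖ ^ 2 * ‖Q t‖ ^ 2).continuousOn.integrableOn_Icc
  have i2 : IntegrableOn (fun t => p ^ 2 * ‖Q t‖ ^ 2) (Set.Icc (-T) T) :=
    (by fun_prop : Continuous fun t => p ^ 2 * ‖Q t‖ ^ 2).continuousOn.integrableOn_Icc
  calc ∫ t in S, ‖P t‖ ^ 2 * ‖Q t‖ ^ 2 ≤ ∫ t in S, p ^ 2 * ‖Q t‖ ^ 2 := by
        refine setIntegral_mono_on (i1.mono_set hsub) (i2.mono_set hsub) hS fun t ht => ?_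
        exact mul_le_mul_of_nonneg_right (pow_le_pow_left₀ (norm_nonneg _) (hp t ht) 2)
          (by positivity)
    _ ≤ ∫ t in Set.Icc (-T) T, p ^ 2 * ‖Q t‖ ^ 2 :=
        setIntegral_mono_set i2 (Filter.Eventually.of_forall fun t => by positivity)
          (HasSubset.Subset.eventuallyLE hsub)
    _ = p ^ 2 * ∫ t in (-T)..T, ‖Q t‖ ^ 2 := by
        rw [integral_const_mul, integral_Icc_eq_integral_Ioc,
          ← intervalIntegral.integral_of_le (by linarith)]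
    _ ≤ _ := mul_le_mul_of_nonneg_left hI (by positivity)

/-- the final computation -/
private theorem TII_fin (A : ℕ) (C L X Y n : ℝ) (hC : 0 < C) (hL : 1 ≤ L) (hX : 0 ≤ X)
    (hY : 0 ≤ Y) (hn : 0 ≤ n) (hXY : X * Y ≤ 64 * n ^ 3) (hD : 10240000 * C ≤ L) :
    (Y / L ^ (A + 3)) ^ 2 * (2500 * C * X ^ 2 * L ^ 4) ≤ n ^ 6 / L ^ A := by
  have hL0 : 0 < L := by linarith
  have h1 : (X * Y) ^ 2 ≤ (64 * n ^ 3) ^ 2 := pow_le_pow_left₀ (by positivity) hXY 2
  have e1 : (Y / L ^ (A + 3)) ^ 2 * (2500 * C * X ^ 2 * L ^ 4) =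
      (X * Y) ^ 2 * (2500 * C) / L ^ (2 * A + 2) := by
    rw [div_pow, div_mul_eq_mul_div, div_eq_div_iff (by positivity) (by positivity)]
    ring
  rw [e1, div_le_div_iff₀ (by positivity) (by positivity)]
  have h2 : 10240000 * C ≤ L ^ (A + 2) := by
    refine hD.trans ?_
    calc L = L ^ 1 := (pow_one L).symm
      _ ≤ L ^ (A + 2) := pow_le_pow_right₀ hL (by omega)
  calc (X * Y) ^ 2 * (2500 * C) * L ^ A ≤ (64 * n ^ 3) ^ 2 * (2500 * C) * L ^ A := by gcongr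
    _ = n ^ 6 * (10240000 * C) * L ^ A := by ring
    _ ≤ n ^ 6 * L ^ (A + 2) * L ^ A := by gcongr
    _ = n ^ 6 * L ^ (2 * A + 2) := by ring

/-- the mean value of the long factor -/
private theorem TII_long (C : ℝ) (hC : 0 < C) (T : ℝ) (X N : ℕ) (c : ℕ → ℂ)
    (hMV : ∫ t in (-T)..T, ‖DPb X c t‖ ^ 2 ≤
      C * (T + X) * (1 + Real.log X) * ∑ k ∈ Ico X (2 * X), ‖c k‖ ^ 2)
    (hT0 : 0 ≤ T) (hT : T ≤ X) (hX : 1 ≤ X) (hN : 1 ≤ Real.log N)
    (hlog : Real.log (2 * X) ≤ 4 * Real.log N)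
    (hc : ∑ k ∈ Ico X (2 * X), ‖c k‖ ^ 2 ≤ 250 * X * Real.log N ^ 3) :
    ∫ t in (-T)..T, ‖DPb X c t‖ ^ 2 ≤ 2500 * C * (X : ℝ) ^ 2 * Real.log N ^ 4 := by
  have hX0 : (0 : ℝ) < X := by exact_mod_cast hX
  have h1 : 1 + Real.log X ≤ 5 * Real.log N := by
    have : Real.log X ≤ Real.log (2 * X) := Real.log_le_log hX0 (by linarith)
    linarith
  have h0 : 0 ≤ 1 + Real.log X := by
    have := Real.log_natCast_nonneg X
    linarith
  refine hMV.trans ?_
  calc C * (T + X) * (1 + Real.log X) * ∑ k ∈ Ico X (2 * X), ‖c k‖ ^ 2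
      ≤ C * (X + X) * (5 * Real.log N) * (250 * X * Real.log N ^ 3) := by gcongr
    _ = _ := by ring

theorem TII (h1 : SUP_stmt) (h2 : MVT_stmt) : TII_stmt := by
  intro ε A B hε hε'
  obtain ⟨C, hC, hMV⟩ := h2
  obtain ⟨B₁, N₁, hS⟩ := h1 (ε / 2) (A + 3) B (by linarith) (by linarith)
  refine ⟨B₁, max (max N₁ 256) (max ⌈Real.exp (10240000 * C)⌉₊ ⌈(2 : ℝ) ^ (2 / ε)⌉₊),
    fun N hN q hq hqB χ M K U hU hUM hUK hlo hhi => ?_⟩
  have hN1 : N₁ ≤ N := (le_max_left _ _).trans ((le_max_left _ _).trans hN)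
  have hN2 : 256 ≤ N := (le_max_right _ _).trans ((le_max_left _ _).trans hN)
  have hN3 : Real.exp (10240000 * C) ≤ N :=
    (Nat.le_ceil _).trans (by exact_mod_cast (le_max_left _ _).trans ((le_max_right _ _).trans hN))
  have hN4 : (2 : ℝ) ^ (2 / ε) ≤ N :=
    (Nat.le_ceil _).trans (by exact_mod_cast (le_max_right _ _).trans ((le_max_right _ _).trans hN))
  have hn : (256 : ℝ) ≤ N := by exact_mod_cast hN2
  have hn0 : (0 : ℝ) < N := by linarith
  have hn1 : (1 : ℝ) ≤ N := by linarith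
  have hL : 10240000 * C ≤ Real.log N := (Real.le_log_iff_exp_le hn0).2 hN3
  have hL1 : 1 ≤ Real.log N := by
    rw [Real.le_log_iff_exp_le hn0]
    have := Real.exp_one_lt_d9
    linarith
  have hpow2 : 2 ≤ (N : ℝ) ^ (ε / 2) := by
    have e : ((2 : ℝ) ^ (2 / ε)) ^ (ε / 2) = 2 := by
      rw [← Real.rpow_mul (by norm_num)]
      have : 2 / ε * (ε / 2) = 1 := by field_simp
      rw [this, Real.rpow_one]
    calc (2 : ℝ) = ((2 : ℝ) ^ (2 / ε)) ^ (ε / 2) := e.symm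
      _ ≤ (N : ℝ) ^ (ε / 2) := Real.rpow_le_rpow (by positivity) hN4 (by linarith)
  have hpow : (N : ℝ) ^ (ε / 2) ≤ (N : ℝ) ^ ε / 2 := by
    have e : (N : ℝ) ^ ε = (N : ℝ) ^ (ε / 2) * (N : ℝ) ^ (ε / 2) := by
      rw [← Real.rpow_add hn0]
      congr 1
      ring
    rw [e, le_div_iff₀ (by norm_num : (0 : ℝ) < 2)]
    exact mul_le_mul_of_nonneg_left hpow2 (by positivity)
  have hM : (N : ℝ) ^ (ε / 2) ≤ M := by
    have : (U : ℝ) ≤ 2 * M := by exact_mod_cast hUM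
    linarith
  have hU' : (N : ℝ) ^ (ε / 2) ≤ U := by
    have : (0 : ℝ) ≤ (N : ℝ) ^ ε := by positivity
    linarith
  have hM0 : 1 ≤ M := by
    have : (1 : ℝ) ≤ M := by linarith
    exact_mod_cast this
  have hK0 : 1 ≤ K := by
    have h : (2 : ℝ) ≤ U := hpow2.trans hU'
    have : 2 ≤ U := by exact_mod_cast h
    omega
  have hM64 : M ≤ 64 * N ^ 3 := (Nat.le_mul_of_pos_right M hK0).trans hhi
  have hK64 : K ≤ 64 * N ^ 3 := (Nat.le_mul_of_pos_left K hM0).trans hhi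
  have hlog : ∀ X : ℕ, 1 ≤ X → X ≤ 64 * N ^ 3 → Real.log (2 * X) ≤ 4 * Real.log N := by
    intro X hX hX'
    have hx : (X : ℝ) ≤ 64 * (N : ℝ) ^ 3 := by exact_mod_cast hX'
    have hx0 : (0 : ℝ) < X := by exact_mod_cast hX
    have e : 4 * Real.log N = Real.log ((N : ℝ) ^ 4) := by
      rw [Real.log_pow]
      norm_num
    rw [e]
    refine Real.log_le_log (by positivity) ?_
    have h3 : (0 : ℝ) ≤ (N : ℝ) ^ 3 := by positivity
    nlinarith
  obtain ⟨T, hT⟩ : ∃ T, T = (N : ℝ) ^ (1 + 2 * ε) := ⟨_, rfl⟩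
  have hT1 : 1 ≤ T := by
    rw [hT]
    exact Real.one_le_rpow hn1 (by linarith)
  have hT2 : T ≤ (N : ℝ) ^ 2 := by
    rw [hT, ← Real.rpow_natCast]
    exact Real.rpow_le_rpow_of_exponent_le hn1 (by push_cast; linarith)
  have hTX : ∀ X Y : ℕ, Y ≤ X → N ^ 3 ≤ 64 * (X * Y) → T ≤ X := by
    intro X Y hYX h
    have h3 : (N : ℝ) ^ 3 ≤ 64 * ((X : ℝ) * X) := by
      have : N ^ 3 ≤ 64 * (X * X) := h.trans (Nat.mul_le_mul_left _ (Nat.mul_le_mul_left _ hYX))
      exact_mod_cast this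
    have h4 : (8 : ℝ) ≤ (N : ℝ) ^ (2 / 5 : ℝ) := by
      have e : ((2 : ℝ) ^ (8 : ℝ)) ^ (2 / 5 : ℝ) = (2 : ℝ) ^ (16 / 5 : ℝ) := by
        rw [← Real.rpow_mul (by norm_num)]
        norm_num
      calc (8 : ℝ) = (2 : ℝ) ^ (3 : ℝ) := by norm_num
        _ ≤ (2 : ℝ) ^ (16 / 5 : ℝ) :=
          Real.rpow_le_rpow_of_exponent_le (by norm_num) (by norm_num)
        _ = ((2 : ℝ) ^ (8 : ℝ)) ^ (2 / 5 : ℝ) := e.symm
        _ ≤ (N : ℝ) ^ (2 / 5 : ℝ) := by
          refine Real.rpow_le_rpow (by positivity) ?_ (by norm_num)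
          have : (2 : ℝ) ^ (8 : ℝ) = 256 := by
            rw [show (8 : ℝ) = ((8 : ℕ) : ℝ) by norm_num, Real.rpow_natCast]
            norm_num
          rw [this]
          exact hn
    have h5 : T ≤ (N : ℝ) ^ (11 / 10 : ℝ) := by
      rw [hT]
      exact Real.rpow_le_rpow_of_exponent_le hn1 (by linarith)
    have h6 : (8 * T) ^ 2 ≤ (N : ℝ) ^ 3 := by
      have h7 : 8 * T ≤ (N : ℝ) ^ (2 / 5 : ℝ) * (N : ℝ) ^ (11 / 10 : ℝ) := by
        have : 0 ≤ T := by linarith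
        exact mul_le_mul h4 h5 this (by positivity)
      have e2 : (N : ℝ) ^ (2 / 5 : ℝ) * (N : ℝ) ^ (11 / 10 : ℝ) = (N : ℝ) ^ (3 / 2 : ℝ) := by
        rw [← Real.rpow_add hn0]
        norm_num
      rw [e2] at h7
      calc (8 * T) ^ 2 ≤ ((N : ℝ) ^ (3 / 2 : ℝ)) ^ 2 :=
            pow_le_pow_left₀ (by linarith) h7 2
        _ = (N : ℝ) ^ 3 := by
          rw [← Real.rpow_natCast, ← Real.rpow_mul hn0.le, ← Real.rpow_natCast]
          norm_num
    have h8 : T ^ 2 ≤ (X : ℝ) ^ 2 := by nlinarith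
    exact (pow_le_pow_iff_left₀ (by linarith) (Nat.cast_nonneg X) (by norm_num)).1 h8
  have hST : ∀ t ∈ Tset ε B₁ N, |t| ≤ T := by
    intro t ht
    rw [hT]
    exact ht.2
  have hS' : ∀ t ∈ Tset ε B₁ N, _ := fun t ht =>
    hS N hN1 q hq hqB χ t ht.1 ((hST t ht).trans hT2)
  obtain ⟨a, ha⟩ : ∃ a : ℕ → ℂ, a = fun m => if U < m then (vonMangoldt m : ℂ) * χ m else 0 :=
    ⟨_, rfl⟩
  obtain ⟨b, hb⟩ : ∃ b : ℕ → ℂ, b = fun k => ((beta U k : ℝ) : ℂ) * χ k := ⟨_, rfl⟩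
  rw [← ha, ← hb]
  have hLn : ∀ n : ℕ, 250 * (n : ℝ) * Real.log N ^ 2 ≤ 250 * (n : ℝ) * Real.log N ^ 3 := by
    intro n
    refine mul_le_mul_of_nonneg_left (pow_le_pow_right₀ hL1 (by norm_num)) (by positivity)
  rcases le_total K M with hKM | hMK
  · -- the long factor is the first one
    have hsum : ∑ k ∈ Ico M (2 * M), ‖a k‖ ^ 2 ≤ 250 * M * Real.log N ^ 3 := by
      refine le_trans ?_ (hLn M)
      have h3 : ∀ k ∈ Ico M (2 * M), ‖a k‖ ^ 2 ≤ 250 * Real.log N ^ 2 := by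
        intro k hk
        rw [mem_Ico] at hk
        have h4 : ‖a k‖ ≤ 4 * Real.log N := by
          rw [ha]
          dsimp only
          split_ifs
          · rw [norm_mul, Complex.norm_real, Real.norm_of_nonneg vonMangoldt_nonneg]
            have h5 := χ.norm_le_one k
            have h6 : vonMangoldt k ≤ Real.log k := vonMangoldt_le_log
            have h7 : Real.log k ≤ Real.log (2 * M) := by
              refine Real.log_le_log (by exact_mod_cast (by omega : 0 < k)) ?_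
              exact_mod_cast hk.2.le
            have h8 := hlog M hM0 hM64
            have h9 : (0 : ℝ) ≤ vonMangoldt k := vonMangoldt_nonneg
            calc vonMangoldt k * ‖χ k‖ ≤ vonMangoldt k * 1 := mul_le_mul_of_nonneg_left h5 h9
              _ ≤ _ := by linarith
          · rw [norm_zero]
            linarith
        have h5 : ‖a k‖ ^ 2 ≤ (4 * Real.log N) ^ 2 := pow_le_pow_left₀ (norm_nonneg _) h4 2
        have h6 : 0 ≤ Real.log N ^ 2 := by positivity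
        nlinarith
      refine (sum_le_sum h3).trans (le_of_eq ?_)
      rw [sum_const, Nat.card_Ico, nsmul_eq_mul, show 2 * M - M = M by omega]
      ring
    have hI := TII_long C hC T M N a (hMV T M a hT1 hM0) (by linarith)
      (hTX M K hKM hlo) hM0 hL1 (hlog M hM0 hM64) hsum
    have hp : ∀ t ∈ Tset ε B₁ N, ‖DPb K b t‖ ≤ K / Real.log N ^ (A + 3) := by
      intro t ht
      have := (hS' t ht).2.1 K U hU' hUK hK64
      rw [hb]
      exact this
    have h3 := TII_core (Tset ε B₁ N) (TII_meas ε B₁ N) T _ _ (DPb K b) (DPb M a) (TII_cont K b)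
      (TII_cont M a) (by linarith) hST hp hI
    have e : (fun t => ‖DPb M a t‖ ^ 2 * ‖DPb K b t‖ ^ 2) =
        fun t => ‖DPb K b t‖ ^ 2 * ‖DPb M a t‖ ^ 2 := by
      funext t
      rw [mul_comm]
    rw [e]
    refine h3.trans (TII_fin A C (Real.log N) M K N hC hL1 (Nat.cast_nonneg _)
      (Nat.cast_nonneg _) hn0.le ?_ hL)
    exact_mod_cast hhi
  · have hsum : ∑ k ∈ Ico K (2 * K), ‖b k‖ ^ 2 ≤ 250 * K * Real.log N ^ 3 := by
      have h3 : ∑ k ∈ Ico K (2 * K), ‖b k‖ ^ 2 ≤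
          ∑ k ∈ Ioc 0 (2 * K), Pool.Agent.helper85.BVP.tau k ^ 2 := by
        refine (sum_le_sum (g := fun k => Pool.Agent.helper85.BVP.tau k ^ 2)
          fun k _ => ?_).trans (sum_le_sum_of_subset_of_nonneg ?_ fun k _ _ => by positivity)
        · refine pow_le_pow_left₀ (norm_nonneg _) ?_ 2
          rw [hb]
          dsimp only
          rw [norm_mul, Complex.norm_real]
          have h4 := χ.norm_le_one k
          have h5 : |beta U k| ≤ _ := Pool.Agent.helper85.BVP.abs_beta_le U k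
          calc ‖beta U k‖ * ‖χ k‖ ≤ ‖beta U k‖ * 1 :=
                mul_le_mul_of_nonneg_left h4 (norm_nonneg _)
            _ ≤ _ := by
              rw [mul_one, Real.norm_eq_abs]
              exact h5
        · intro k hk
          rw [mem_Ico] at hk
          rw [mem_Ioc]
          omega
      refine (h3.trans (Pool.Agent.helper85.BVP.sum_tau_sq_le _)).trans ?_
      have h4 := hlog K hK0 hK64
      have e : ((2 * K : ℕ) : ℝ) = 2 * (K : ℝ) := by push_cast; ring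
      rw [e]
      have h5 : 0 ≤ 1 + Real.log (2 * K) := by
        have h6 := Real.log_natCast_nonneg (2 * K)
        rw [e] at h6
        linarith
      have h7 : 1 + Real.log (2 * K) ≤ 5 * Real.log N := by linarith
      calc 2 * (K : ℝ) * (1 + Real.log (2 * K)) ^ 3 ≤ 2 * (K : ℝ) * (5 * Real.log N) ^ 3 :=
            mul_le_mul_of_nonneg_left (pow_le_pow_left₀ h5 h7 3) (by positivity)
        _ = _ := by ring
    have hI := TII_long C hC T K N b (hMV T K b hT1 hK0) (by linarith)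
      (hTX K M hMK (by rw [mul_comm K M]; exact hlo)) hK0 hL1 (hlog K hK0 hK64) hsum
    have hp : ∀ t ∈ Tset ε B₁ N, ‖DPb M a t‖ ≤ M / Real.log N ^ (A + 3) := by
      intro t ht
      have := (hS' t ht).1 M U hM hM64
      rw [ha]
      exact this
    have h3 := TII_core (Tset ε B₁ N) (TII_meas ε B₁ N) T _ _ (DPb M a) (DPb K b) (TII_cont M a)
      (TII_cont K b) (by linarith) hST hp hI
    refine h3.trans (TII_fin A C (Real.log N) K M N hC hL1 (Nat.cast_nonneg _)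
      (Nat.cast_nonneg _) hn0.le ?_ hL)
    rw [mul_comm]
    exact_mod_cast hhi

end Pool.Agent.CH
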